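import Pool.Agent.Work.Bes.Interface

/-!
Common lemmas for the blocks FARI and MAINI.
-/

open MeasureTheory Complex
open scoped ComplexOrder InnerProductSpace ComplexConjugate

set_option autoImplicit false
set_option linter.unusedSectionVars false

universe v

namespace Pool.Bes.h36

open Pool.Bes

/-! ### Gaussian moments -/

theorem gam_nonneg (t : ℝ) (s : ℂ) : 0 ≤ gam t s := by
  unfold gam
  positivity

theorem gam_cont (t : ℝ) : Continuous (gam t) := by
  unfold gam
  fun_prop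

theorem gam_neg (t : ℝ) (s : ℂ) : gam t (-s) = gam t s := by
  unfold gam
  rw [norm_neg]

theorem sq_mul_gam_le {t : ℝ} (ht : 0 < t) (s : ℂ) :
    ‖s‖ ^ 2 * gam t s ≤ 8 * t ^ 2 * gam (Real.sqrt 2 * t) s := by
  unfold gam
  have h2 : (Real.sqrt 2 * t) ^ 2 = 2 * t ^ 2 := by
    rw [mul_pow, Real.sq_sqrt (by norm_num)]
  rw [h2]
  set x : ℝ := ‖s‖ ^ 2 / (4 * t ^ 2) with hx
  have e1 : ‖s‖ ^ 2 / (2 * t ^ 2) = 2 * x := by
    rw [hx]; field_simp; norm_num
  have e2 : ‖s‖ ^ 2 / (2 * (2 * t ^ 2)) = x := by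
    rw [hx]; congr 1; ring
  rw [e1, e2]
  have hx0 : 0 ≤ x := by positivity
  have hs : ‖s‖ ^ 2 = 4 * t ^ 2 * x := by
    rw [hx]; field_simp
  have h3 : x * Real.exp (-(2 * x)) ≤ Real.exp (-x) := by
    have h4 : x ≤ Real.exp x := (by linarith [Real.add_one_le_exp x])
    calc x * Real.exp (-(2 * x)) ≤ Real.exp x * Real.exp (-(2 * x)) :=
          mul_le_mul_of_nonneg_right h4 (Real.exp_pos _).le
      _ = Real.exp (-x) := by rw [← Real.exp_add]; congr 1; ring
  rw [hs]
  have hpi := Real.pi_pos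
  calc 4 * t ^ 2 * x * (1 / (2 * Real.pi * t ^ 2) * Real.exp (-(2 * x)))
      = (4 * t ^ 2 / (2 * Real.pi * t ^ 2)) * (x * Real.exp (-(2 * x))) := by ring
    _ ≤ (4 * t ^ 2 / (2 * Real.pi * t ^ 2)) * Real.exp (-x) :=
        mul_le_mul_of_nonneg_left h3 (by positivity)
    _ = 8 * t ^ 2 * (1 / (2 * Real.pi * (2 * t ^ 2)) * Real.exp (-x)) := by
        field_simp
        ring

/-- the line derivative of the Gaussian -/
theorem gam_lineDeriv {t : ℝ} (ht : 0 < t) (s e : ℂ) :
    HasLineDerivAt ℝ (gam t) (-(ip e s / t ^ 2) * gam t s) s e := by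
  unfold HasLineDerivAt
  have h1 : (fun c : ℝ => gam t (s + c • e)) = fun c : ℝ => 1 / (2 * Real.pi * t ^ 2) *
      Real.exp (-(((s.re + c * e.re) ^ 2 + (s.im + c * e.im) ^ 2) / (2 * t ^ 2))) := by
    funext c
    unfold gam
    congr 4
    rw [← Complex.normSq_eq_norm_sq, Complex.normSq_apply]
    simp
    ring
  rw [h1]
  have h2 : HasDerivAt (fun c : ℝ => (s.re + c * e.re) ^ 2 + (s.im + c * e.im) ^ 2)
      (2 * (s.re + 0 * e.re) * e.re + 2 * (s.im + 0 * e.im) * e.im) 0 := by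
    have a1 : HasDerivAt (fun c : ℝ => s.re + c * e.re) e.re 0 := by
      simpa using ((hasDerivAt_id (0 : ℝ)).mul_const e.re).const_add s.re
    have a2 : HasDerivAt (fun c : ℝ => s.im + c * e.im) e.im 0 := by
      simpa using ((hasDerivAt_id (0 : ℝ)).mul_const e.im).const_add s.im
    have a3 := (a1.pow 2).add (a2.pow 2)
    refine a3.congr_deriv ?_
    simp
  have h3 := ((h2.div_const (2 * t ^ 2)).neg.exp).const_mul (1 / (2 * Real.pi * t ^ 2))
  refine h3.congr_deriv ?_
  have h4 : ‖s‖ ^ 2 = s.re ^ 2 + s.im ^ 2 := by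
    rw [← Complex.normSq_eq_norm_sq, Complex.normSq_apply]; ring
  unfold gam ip
  rw [h4]
  simp only [zero_mul, add_zero, Pi.neg_apply]
  field_simp

section

variable {H : Type v} [NormedAddCommGroup H] [InnerProductSpace ℂ H] [CompleteSpace H]

/-- evaluation as a continuous linear map -/
noncomputable def prL (Y : H →L[ℂ] H) : S1 H →L[ℂ] ℂ :=
  (ContinuousLinearMap.apply ℂ ℂ Y).comp S1.toDual

theorem prL_apply (Y : H →L[ℂ] H) (X : S1 H) : prL Y X = pr X Y := rfl

theorem pr_add (X Z : S1 H) (Y : H →L[ℂ] H) : pr (X + Z) Y = pr X Y + pr Z Y := by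
  simp only [← prL_apply, map_add]

theorem pr_sub (X Z : S1 H) (Y : H →L[ℂ] H) : pr (X - Z) Y = pr X Y - pr Z Y := by
  simp only [← prL_apply, map_sub]

theorem pr_smul (c : ℂ) (X : S1 H) (Y : H →L[ℂ] H) : pr (c • X) Y = c * pr X Y := by
  simp only [← prL_apply, map_smul, smul_eq_mul]

theorem pr_add_right (X : S1 H) (Y Z : H →L[ℂ] H) : pr X (Y + Z) = pr X Y + pr X Z :=
  map_add X.toDual Y Z

theorem pr_sub_right (X : S1 H) (Y Z : H →L[ℂ] H) : pr X (Y - Z) = pr X Y - pr X Z :=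
  map_sub X.toDual Y Z

theorem pr_smul_right (X : S1 H) (c : ℂ) (Y : H →L[ℂ] H) : pr X (c • Y) = c * pr X Y :=
  map_smul X.toDual c Y

theorem pr_neg_right (X : S1 H) (Y : H →L[ℂ] H) : pr X (-Y) = -pr X Y :=
  map_neg X.toDual Y

theorem pr_integral {F : ℂ → S1 H} (hF : Integrable F) (Y : H →L[ℂ] H) :
    pr (∫ s, F s) Y = ∫ s, pr (F s) Y := by
  rw [← prL_apply, ← ContinuousLinearMap.integral_comp_comm _ hF]
  rfl

theorem pr_tD (P : Pair H) (q : ℂ) (X : S1 H) (Y : H →L[ℂ] H) :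
    pr (tD P q X) Y = pr X (ex P.B (-q) * (Y * ex P.A q)) := rfl

theorem D_real_smul (P : Pair H) (c : ℝ) (e : ℂ) : P.D ((c : ℂ) * e) = (c : ℂ) • P.D e := by
  unfold Pair.D
  simp only [Complex.mul_re, Complex.mul_im, Complex.ofReal_re, Complex.ofReal_im, zero_mul, sub_zero,
    add_zero, smul_add, smul_smul]
  congr 2 <;> push_cast <;> ring

theorem D_eq (P : Pair H) (e : ℂ) : P.D e = (e.re : ℂ) • P.D 1 + (e.im : ℂ) • P.D Complex.I := by
  unfold Pair.D
  simp

theorem dt_neg (e : ℂ) (N : H →L[ℂ] H) : dt (-e) N = -dt e N := by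
  unfold dt
  simp only [map_neg, neg_smul, smul_add, smul_neg, neg_add]

theorem star_dt (e : ℂ) (N : H →L[ℂ] H) : star (dt e N) = dt e N := by
  unfold dt
  simp only [star_smul, star_add, star_star]
  rw [add_comm]
  congr 1
  · simp
  · simp

theorem ex_comp (hEx : Stmt_Ex.{v}) {N : H →L[ℂ] H} (hN : IsStarNormal N) (q e : ℂ) :
    HasDerivAt (fun c : ℝ => ex N (q + c * e)) (Complex.I • (dt e N * ex N q)) 0 := by
  obtain ⟨e0, eadd, -, -, -, ecomm, -, ed⟩ := hEx H N hN
  have h1 := ed e 0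
  have h2 : (fun c : ℝ => ex N (q + c * e)) = fun c : ℝ => ex N q * ex N (c * e) := by
    funext c
    rw [eadd]
  rw [h2]
  have h3 := h1.const_mul (ex N q)
  refine h3.congr_deriv ?_
  rw [Complex.ofReal_zero, zero_mul, e0, mul_one, (ecomm q e).eq, mul_smul_comm]

theorem ex_comp_neg (hEx : Stmt_Ex.{v}) {N : H →L[ℂ] H} (hN : IsStarNormal N) (q e : ℂ) :
    HasDerivAt (fun c : ℝ => ex N (-(q + c * e))) (-(Complex.I • (dt e N * ex N (-q)))) 0 := by
  have h1 := ex_comp hEx hN (-q) (-e)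
  have h2 : (fun c : ℝ => ex N (-(q + c * e))) = fun c : ℝ => ex N (-q + c * (-e)) := by
    funext c
    congr 1
    ring
  rw [h2]
  refine h1.congr_deriv ?_
  rw [dt_neg, neg_mul, smul_neg]

/-- integrability of Gaussian averages -/
theorem int_gam_smul (hAv : Stmt_Av.{v}) (P : Pair H) {t : ℝ} (ht : 0 < t) (X : S1 H) :
    Integrable (fun s => (gam t s : ℂ) • tD P s X) := by
  obtain ⟨-, hn, hc, -, -, -, -, hg, -⟩ := hAv H P
  refine Integrable.mono' ((hg t ht).2.1.mul_const ‖X‖) ?_ (Filter.Eventually.of_forall fun s => ?_)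
  · exact ((Complex.continuous_ofReal.comp (gam_cont t)).smul (hc X)).aestronglyMeasurable
  · rw [norm_smul, hn, Complex.norm_real, Real.norm_of_nonneg (gam_nonneg t s)]

theorem pr_G (hAv : Stmt_Av.{v}) (P : Pair H) {t : ℝ} (ht : 0 < t) (X : S1 H) (Y : H →L[ℂ] H) :
    pr (G P t X) Y = ∫ s, (gam t s : ℂ) * pr (tD P s X) Y := by
  unfold G av
  rw [pr_integral (int_gam_smul hAv P ht X)]
  simp only [pr_smul]

theorem G_add (hAv : Stmt_Av.{v}) (P : Pair H) {t : ℝ} (ht : 0 < t) (X Y : S1 H) :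
    G P t (X + Y) = G P t X + G P t Y := by
  unfold G av
  rw [← integral_add (int_gam_smul hAv P ht X) (int_gam_smul hAv P ht Y)]
  simp only [map_add, smul_add]

theorem G_smul (P : Pair H) {t : ℝ} (c : ℂ) (X : S1 H) :
    G P t (c • X) = c • G P t X := by
  unfold G av
  rw [← integral_smul]
  simp only [map_smul]
  congr 1
  funext s
  rw [smul_comm]

theorem G_clm (hAv : Stmt_Av.{v}) (P : Pair H) {t : ℝ} (ht : 0 < t) (L : S1 H →L[ℂ] S1 H)
    (hL : ∀ s X, L (tD P s X) = tD P s (L X)) (X : S1 H) : L (G P t X) = G P t (L X) := by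
  unfold G av
  rw [← ContinuousLinearMap.integral_comp_comm _ (int_gam_smul hAv P ht X)]
  simp only [map_smul, hL]

/-- first and second moments -/
theorem int_sq_gam (hAv : Stmt_Av.{v}) (P : Pair H) {t : ℝ} (ht : 0 < t) :
    Integrable (fun s : ℂ => ‖s‖ ^ 2 * gam t s) := by
  obtain ⟨-, -, -, -, -, -, -, hg, -⟩ := hAv H P
  have h2 : 0 < Real.sqrt 2 * t := by positivity
  refine Integrable.mono' ((hg _ h2).2.1.const_mul (8 * t ^ 2)) ?_ (Filter.Eventually.of_forall fun s => ?_)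
  · exact ((continuous_norm.pow 2).mul (gam_cont t)).aestronglyMeasurable
  · rw [Real.norm_of_nonneg (mul_nonneg (by positivity) (gam_nonneg t s))]
    exact sq_mul_gam_le ht s

theorem int_norm_gam (hAv : Stmt_Av.{v}) (P : Pair H) {t : ℝ} (ht : 0 < t) :
    Integrable (fun s : ℂ => ‖s‖ * gam t s) := by
  have h2 := int_sq_gam hAv P ht
  obtain ⟨-, -, -, -, -, -, -, hg, -⟩ := hAv H P
  refine Integrable.mono' ((hg t ht).2.1.add h2) ?_ (Filter.Eventually.of_forall fun s => ?_)
  · exact (continuous_norm.mul (gam_cont t)).aestronglyMeasurable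
  · rw [Real.norm_of_nonneg (mul_nonneg (norm_nonneg _) (gam_nonneg t s)), Pi.add_apply]
    have h3 : ‖s‖ ≤ 1 + ‖s‖ ^ 2 := by nlinarith [sq_nonneg (‖s‖ - 1), norm_nonneg s]
    nlinarith [gam_nonneg t s]

theorem abs_ip_le (e s : ℂ) : |ip e s| ≤ ‖e‖ * ‖s‖ := by
  have h : ip e s = (conj e * s).re := by
    unfold ip
    simp
  rw [h]
  refine (Complex.abs_re_le_norm _).trans (le_of_eq ?_)
  rw [norm_mul, Complex.norm_conj]

theorem ip_cont (e : ℂ) : Continuous (ip e) := by
  unfold ip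
  fun_prop

theorem d_nonneg (hDu : Stmt_Du.{v}) (P : Pair H) : 0 ≤ P.d := by
  obtain ⟨-, h, -⟩ := hDu H P
  have := (norm_nonneg _).trans (h 1)
  simpa using this

/-- integration by parts for the window -/
theorem ibp_U (hAv : Stmt_Av.{v}) (hDu : Stmt_Du.{v}) (P : Pair H) {t : ℝ} (ht : 0 < t) (e : ℂ) :
    Integrable (fun s : ℂ => ((ip e s * gam t s : ℝ) : ℂ) • U P s) ∧
    ∫ s : ℂ, ((ip e s * gam t s : ℝ) : ℂ) • U P s = (Complex.I * (t : ℂ) ^ 2) • G P t (P.D e) := by
  have hd := d_nonneg hDu P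
  obtain ⟨-, -, -, -, -, -, hU, -, -, -, hUc, hUd, -⟩ := hDu H P
  have i1 : Integrable (fun s : ℂ => ((ip e s * gam t s : ℝ) : ℂ) • U P s) := by
    refine Integrable.mono' ((int_sq_gam hAv P ht).const_mul (‖e‖ * P.d)) ?_
      (Filter.Eventually.of_forall fun s => ?_)
    · exact ((Complex.continuous_ofReal.comp ((ip_cont e).mul (gam_cont t))).smul hUc).aestronglyMeasurable
    · rw [norm_smul, Complex.norm_real, Real.norm_eq_abs, abs_mul, abs_of_nonneg (gam_nonneg t s)]
      calc |ip e s| * gam t s * ‖U P s‖ ≤ (‖e‖ * ‖s‖) * gam t s * (‖s‖ * P.d) :=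
            mul_le_mul (mul_le_mul_of_nonneg_right (abs_ip_le e s) (gam_nonneg t s)) (hU s)
              (norm_nonneg _) (mul_nonneg (by positivity) (gam_nonneg t s))
        _ = ‖e‖ * P.d * (‖s‖ ^ 2 * gam t s) := by ring
  have i2 : Integrable (fun s : ℂ => gam t s • U P s) := by
    refine Integrable.mono' ((int_norm_gam hAv P ht).const_mul P.d) ?_
      (Filter.Eventually.of_forall fun s => ?_)
    · exact ((gam_cont t).smul hUc).aestronglyMeasurable
    · rw [norm_smul, Real.norm_of_nonneg (gam_nonneg t s)]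
      calc gam t s * ‖U P s‖ ≤ gam t s * (‖s‖ * P.d) :=
            mul_le_mul_of_nonneg_left (hU s) (gam_nonneg t s)
        _ = P.d * (‖s‖ * gam t s) := by ring
  refine ⟨i1, ?_⟩
  have key := integral_bilinear_hasLineDerivAt_right_eq_neg_left_of_integrable
    (μ := (volume : Measure ℂ)) (f := gam t) (f' := fun s => -(ip e s / t ^ 2) * gam t s)
    (g := U P) (g' := fun s => Complex.I • tD P s (P.D e)) (v := e)
    (B := ContinuousLinearMap.lsmul ℝ ℝ) ?_ ?_ ?_ ?_ ?_
  · simp only [ContinuousLinearMap.lsmul_apply] at key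
    have e1 : ∫ s : ℂ, gam t s • (Complex.I • tD P s (P.D e)) = Complex.I • G P t (P.D e) := by
      unfold G av
      rw [← integral_smul]
      congr 1
      funext s
      rw [← Complex.coe_smul, smul_comm]
    have e2 : ∫ s : ℂ, (-(ip e s / t ^ 2) * gam t s) • U P s
        = (-(1 / (t : ℂ) ^ 2)) • ∫ s : ℂ, ((ip e s * gam t s : ℝ) : ℂ) • U P s := by
      rw [← integral_smul]
      congr 1
      funext s
      rw [← Complex.coe_smul, smul_smul]
      congr 1
      push_cast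
      ring
    rw [e1, e2, neg_smul, neg_neg] at key
    rw [mul_comm, mul_smul, key, smul_smul]
    have : (t : ℂ) ≠ 0 := by exact_mod_cast ht.ne'
    field_simp
    rw [one_smul]
  · simp only [ContinuousLinearMap.lsmul_apply]
    refine (i1.smul (-(1 / (t : ℂ) ^ 2))).congr (Filter.Eventually.of_forall fun s => ?_)
    simp only [Pi.smul_apply]
    rw [← Complex.coe_smul, smul_smul]
    congr 1
    push_cast
    ring
  · simp only [ContinuousLinearMap.lsmul_apply]
    refine ((int_gam_smul hAv P ht (P.D e)).smul Complex.I).congr (Filter.Eventually.of_forall fun s => ?_)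
    simp only [Pi.smul_apply]
    rw [← Complex.coe_smul, smul_comm]
  · simpa only [ContinuousLinearMap.lsmul_apply] using i2
  · intro s _
    exact gam_lineDeriv ht s e
  · intro s _
    have := hUd s e
    unfold HasLineDerivAt
    simpa only [Complex.real_smul] using this

end

end Pool.Bes.h36
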